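import Pool.Agent.H68K.PR.StmH

/-!
# The explicit Selmer groups of isomorphic curves
-/

set_option autoImplicit false
set_option linter.all false

open Polynomial IsDedekindDomain NumberField
open Pool.Agent.N874.PM (PLoc)
open Pool.Agent.H68K.PR
open scoped Classical

namespace Pool.Agent.H64.PR

section gen

variable {K : Type} [Field K]

/-- the substitution of `t X` for `X` -/
theorem comp_cubic (A B t : K) (ht : t ≠ 0) :
    (X ^ 3 + C A * X + C B : K[X]).comp (C t⁻¹ * X) =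
      C (t⁻¹ ^ 3) * (X ^ 3 + C (t ^ 2 * A) * X + C (t ^ 3 * B)) := by
  simp only [add_comp, mul_comp, pow_comp, X_comp, C_comp]
  have h1 : (C t⁻¹ * X : K[X]) ^ 3 = C (t⁻¹ ^ 3) * X ^ 3 := by rw [mul_pow, C_pow]
  have h2 : C A * (C t⁻¹ * X) = (C (t⁻¹ ^ 3) * (C (t ^ 2 * A) * X) : K[X]) := by
    rw [← mul_assoc, ← mul_assoc, ← C_mul, ← C_mul]
    congr 2
    field_simp
  have h3 : (C B : K[X]) = C (t⁻¹ ^ 3) * C (t ^ 3 * B) := by
    rw [← C_mul]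
    congr 1
    field_simp
  rw [h1, h2, h3]
  ring

theorem comp_comp_cancel (t : K) (ht : t ≠ 0) (h : K[X]) :
    (h.comp (C t⁻¹ * X)).comp (C t * X) = h := by
  rw [comp_assoc, mul_comp, C_comp, X_comp, ← mul_assoc, ← C_mul, inv_mul_cancel₀ ht, C_1,
    one_mul, comp_X]

theorem dvd_comp {p q : K[X]} (h : p ∣ q) (r : K[X]) : p.comp r ∣ q.comp r := by
  obtain ⟨s, rfl⟩ := h
  exact ⟨s.comp r, mul_comp _ _ _⟩

theorem dvd_tr {A B t : K} (ht : t ≠ 0) {q : K[X]} (h : X ^ 3 + C A * X + C B ∣ q) :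
    X ^ 3 + C (t ^ 2 * A) * X + C (t ^ 3 * B) ∣ q.comp (C t⁻¹ * X) := by
  have h1 := dvd_comp h (C t⁻¹ * X)
  rw [comp_cubic A B t ht] at h1
  exact (dvd_mul_left _ _).trans h1

/-- the substitution as an automorphism of the ring of polynomials -/
noncomputable def sub (t : K) (ht : t ≠ 0) : K[X] ≃ₐ[K] K[X] :=
  AlgEquiv.ofAlgHom (aeval (C t⁻¹ * X)) (aeval (C t * X))
    (by ext; simp [← mul_assoc, ← C_mul, ht])
    (by ext; simp [← mul_assoc, ← C_mul, ht])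

theorem sub_apply (t : K) (ht : t ≠ 0) (h : K[X]) : sub t ht h = h.comp (C t⁻¹ * X) := by
  simp [sub, Polynomial.comp, aeval_def]

theorem irr_tr {A B t : K} (ht : t ≠ 0) (h : Irreducible (X ^ 3 + C A * X + C B : K[X])) :
    Irreducible (X ^ 3 + C (t ^ 2 * A) * X + C (t ^ 3 * B) : K[X]) := by
  have h1 : Irreducible (sub t ht (X ^ 3 + C A * X + C B)) :=
    (MulEquiv.irreducible_iff (sub t ht).toMulEquiv).2 h
  rw [sub_apply, comp_cubic A B t ht] at h1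
  refine (irreducible_isUnit_mul ?_).1 h1
  exact isUnit_C.2 (IsUnit.mk0 _ (pow_ne_zero _ (inv_ne_zero ht)))

theorem cop_tr {A B t : K} (ht : t ≠ 0) {h : K[X]} (hc : IsCoprime h (X ^ 3 + C A * X + C B)) :
    IsCoprime (h.comp (C t⁻¹ * X)) (X ^ 3 + C (t ^ 2 * A) * X + C (t ^ 3 * B)) := by
  have h1 : IsCoprime (sub t ht h) (sub t ht (X ^ 3 + C A * X + C B)) :=
    hc.map (sub t ht).toRingEquiv.toRingHom
  rw [sub_apply, sub_apply, comp_cubic A B t ht] at h1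
  exact h1.of_mul_right_right

theorem norm_tr (A B t : K) (ht : t ≠ 0) (h : K[X]) :
    Algebra.norm K (AdjoinRoot.mk (X ^ 3 + C (t ^ 2 * A) * X + C (t ^ 3 * B)) (h.comp (C t⁻¹ * X)))
      = Algebra.norm K (AdjoinRoot.mk (X ^ 3 + C A * X + C B) h) := by
  have hI : Ideal.span {(X ^ 3 + C (t ^ 2 * A) * X + C (t ^ 3 * B) : K[X])} =
      (Ideal.span {(X ^ 3 + C A * X + C B : K[X])}).map ((sub t ht : K[X] ≃ₐ[K] K[X]) : K[X] →+* K[X]) := by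
    rw [Ideal.map_span, Set.image_singleton]
    have e : ((sub t ht : K[X] ≃ₐ[K] K[X]) : K[X] →+* K[X]) (X ^ 3 + C A * X + C B) =
        C (t⁻¹ ^ 3) * (X ^ 3 + C (t ^ 2 * A) * X + C (t ^ 3 * B)) := by
      have := sub_apply t ht (X ^ 3 + C A * X + C B)
      rw [comp_cubic A B t ht] at this
      exact this
    rw [e]
    refine (Ideal.span_singleton_mul_left_unit ?_ _).symm
    exact isUnit_C.2 (IsUnit.mk0 _ (pow_ne_zero _ (inv_ne_zero ht)))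
  let e : (K[X] ⧸ Ideal.span {(X ^ 3 + C A * X + C B : K[X])}) ≃ₐ[K]
      (K[X] ⧸ Ideal.span {(X ^ 3 + C (t ^ 2 * A) * X + C (t ^ 3 * B) : K[X])}) :=
    Ideal.quotientEquivAlg _ _ (sub t ht) hI
  have h1 := Algebra.norm_eq_of_algEquiv e (Ideal.Quotient.mk _ h)
  have h2 : e (Ideal.Quotient.mk _ h) = Ideal.Quotient.mk _ (h.comp (C t⁻¹ * X)) := by
    rw [← sub_apply t ht h]
    rfl
  rw [h2] at h1
  exact h1

end gen

theorem ploc_tr {M : Type} (K : Type) [Field M] [Field K] [Algebra M K] {A B : M} {h : M[X]}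
    {t : M} (ht : t ≠ 0) (hP : PLoc K A B h) :
    PLoc K ((t ^ 2) ^ 2 * A) ((t ^ 2) ^ 3 * B) (h.comp (C (t ^ 2)⁻¹ * X)) := by
  set τ : K := algebraMap M K t with hτ
  have hτ0 : τ ≠ 0 := (map_ne_zero_iff _ (algebraMap M K).injective).2 ht
  have hτ2 : τ ^ 2 ≠ 0 := pow_ne_zero _ hτ0
  have e1 : (h.comp (C (t ^ 2)⁻¹ * X)).map (algebraMap M K) =
      (h.map (algebraMap M K)).comp (C (τ ^ 2)⁻¹ * X) := by
    rw [Polynomial.map_comp, Polynomial.map_mul, map_C, map_X, map_inv₀, map_pow]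
  have e2 : algebraMap M K ((t ^ 2) ^ 2 * A) = (τ ^ 2) ^ 2 * algebraMap M K A := by
    rw [map_mul, map_pow, map_pow]
  have e3 : algebraMap M K ((t ^ 2) ^ 3 * B) = (τ ^ 2) ^ 3 * algebraMap M K B := by
    rw [map_mul, map_pow, map_pow]
  rcases hP with ⟨g, hg⟩ | ⟨x, y, hy, hxy, g, hg⟩
  · left
    refine ⟨g.comp (C (τ ^ 2)⁻¹ * X), ?_⟩
    have := dvd_tr hτ2 hg
    rw [sub_comp, pow_comp] at this
    rw [e1, e2, e3]
    exact this
  · right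
    refine ⟨τ ^ 2 * x, τ ^ 3 * y, mul_ne_zero (pow_ne_zero _ hτ0) hy, ?_,
      C τ * g.comp (C (τ ^ 2)⁻¹ * X), ?_⟩
    · rw [e2, e3, mul_pow, hxy]
      ring
    · have h1 := dvd_tr hτ2 hg
      rw [sub_comp, pow_comp, mul_comp, sub_comp, C_comp, X_comp] at h1
      rw [e1, e2, e3]
      have h2 : (C (τ ^ 2 * x) - X) * (h.map (algebraMap M K)).comp (C (τ ^ 2)⁻¹ * X) -
          (C τ * g.comp (C (τ ^ 2)⁻¹ * X)) ^ 2 = C (τ ^ 2) *
          ((C x - C (τ ^ 2)⁻¹ * X) * (h.map (algebraMap M K)).comp (C (τ ^ 2)⁻¹ * X) -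
            g.comp (C (τ ^ 2)⁻¹ * X) ^ 2) := by
        have h3 : (X : K[X]) = C (τ ^ 2) * (C (τ ^ 2)⁻¹ * X) := by
          rw [← mul_assoc, ← C_mul, mul_inv_cancel₀ hτ2, C_1, one_mul]
        have h4 : (C (τ ^ 2 * x) - X : K[X]) = C (τ ^ 2) * (C x - C (τ ^ 2)⁻¹ * X) := by
          rw [C_mul, mul_sub, ← h3]
        rw [h4, mul_pow, ← C_pow]
        ring
      rw [h2]
      exact h1.mul_left _

variable {M : Type} [Field M] [NumberField M]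

theorem selH_tr {A B : M} {h : M[X]} {t : M} (ht : t ≠ 0) (hP : SelH A B h) :
    SelH ((t ^ 2) ^ 2 * A) ((t ^ 2) ^ 3 * B) (h.comp (C (t ^ 2)⁻¹ * X)) where
  cop := cop_tr (pow_ne_zero 2 ht) hP.cop
  nrm := by
    rw [norm_tr A B (t ^ 2) (pow_ne_zero 2 ht) h]
    exact hP.nrm
  fin := fun w => ploc_tr _ ht (hP.fin w)
  real := fun ρ => by
    letI := ρ.toAlgebra
    exact ploc_tr ℝ ht (hP.real ρ)

theorem selN_tr {A B : M} {n : ℕ} {t : M} (ht : t ≠ 0) (hP : SelN A B n) :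
    SelN ((t ^ 2) ^ 2 * A) ((t ^ 2) ^ 3 * B) n := by
  have ht2 : t ^ 2 ≠ 0 := pow_ne_zero 2 ht
  have hti : t⁻¹ ≠ 0 := inv_ne_zero ht
  have hti2 : (t⁻¹) ^ 2 ≠ 0 := pow_ne_zero 2 hti
  have eA : ((t⁻¹) ^ 2) ^ 2 * ((t ^ 2) ^ 2 * A) = A := by field_simp
  have eB : ((t⁻¹) ^ 2) ^ 3 * ((t ^ 2) ^ 3 * B) = B := by field_simp
  have ei : ((t⁻¹) ^ 2)⁻¹ = t ^ 2 := by rw [inv_pow, inv_inv]
  have ei' : (t⁻¹) ^ 2 = (t ^ 2)⁻¹ := inv_pow _ _
  obtain ⟨r, hr, hr2, hr3⟩ := hP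
  have canc1 : ∀ g : M[X], (g.comp (C (t ^ 2)⁻¹ * X)).comp (C (t ^ 2) * X) = g :=
    comp_comp_cancel _ ht2
  have canc2 : ∀ g : M[X], (g.comp (C (t ^ 2) * X)).comp (C (t ^ 2)⁻¹ * X) = g := by
    intro g
    have := comp_comp_cancel _ hti2 g
    rw [ei, ei'] at this
    exact this
  refine ⟨fun i => (r i).comp (C (t ^ 2)⁻¹ * X), fun i => selH_tr ht (hr i), ?_, ?_⟩
  · rintro i j ⟨s, hs⟩
    apply hr2
    have h1 := dvd_tr hti2 hs
    rw [eA, eB, ei, sub_comp, mul_comp, canc1, canc1, pow_comp] at h1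
    exact ⟨_, h1⟩
  · intro h hh
    have h1 := selH_tr hti hh
    rw [eA, eB, ei] at h1
    obtain ⟨i, s, hs⟩ := hr3 _ h1
    refine ⟨i, s.comp (C (t ^ 2)⁻¹ * X), ?_⟩
    have h2 := dvd_tr ht2 hs
    rw [sub_comp, mul_comp, canc2, pow_comp] at h2
    exact h2

/-- Multiplication of the pairs by units. -/
def um {F : Type} [Field F] [NumberField F] (u : (𝓞 F)ˣ) (p : 𝓞 F × 𝓞 F) : 𝓞 F × 𝓞 F :=
  ((u : 𝓞 F) ^ 4 * p.1, (u : 𝓞 F) ^ 6 * p.2)

theorem um_inj {F : Type} [Field F] [NumberField F] (u : (𝓞 F)ˣ) : Function.Injective (um u) := by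
  rintro ⟨a, b⟩ ⟨a', b'⟩ h
  have h0 : (u : 𝓞 F) ≠ 0 := u.ne_zero
  simp only [um, Prod.mk.injEq] at h
  exact Prod.ext (mul_left_cancel₀ (pow_ne_zero 4 h0) h.1) (mul_left_cancel₀ (pow_ne_zero 6 h0) h.2)

theorem gd_um {F : Type} [Field F] [NumberField F] (u : (𝓞 F)ˣ) (n : ℕ) (p : 𝓞 F × 𝓞 F)
    (h : Gd n p) : Gd n (um u p) := by
  have hu : ((u : 𝓞 F) : F) ≠ 0 :=
    (map_ne_zero_iff _ (FaithfulSMul.algebraMap_injective (𝓞 F) F)).2 u.ne_zero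
  have e1 : (((um u p).1 : 𝓞 F) : F) = ((((u : 𝓞 F) : F)) ^ 2) ^ 2 * (p.1 : F) := by
    simp only [um, map_mul, map_pow]
    ring
  have e2 : (((um u p).2 : 𝓞 F) : F) = ((((u : 𝓞 F) : F)) ^ 2) ^ 3 * (p.2 : F) := by
    simp only [um, map_mul, map_pow]
    ring
  constructor
  · rw [e1, e2]
    exact irr_tr (pow_ne_zero 2 hu) h.1
  · rw [e1, e2]
    exact selN_tr hu h.2

end Pool.Agent.H64.PR
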