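import Pool.Agent.H68K.PR.StmH

/-!
# Units of given size (S_UNB)
-/

set_option autoImplicit false
set_option linter.all false

open NumberField NumberField.Units NumberField.Units.dirichletUnitTheorem NumberField.InfinitePlace
open scoped Classical

namespace Pool.Agent.H64.PR

/-- the lattice of the logarithms of units: every vector is near to a lattice vector -/
theorem near (F : Type) [Field F] [NumberField F] : ∃ C₀ : ℝ, 0 ≤ C₀ ∧
    ∀ x : logSpace F, ∃ u : (𝓞 F)ˣ, ∀ w : {w : InfinitePlace F // w ≠ w₀},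
      |logEmbedding F (Additive.ofMul u) w - x w| ≤ C₀ := by
  set b := (basisUnitLattice F).ofZLatticeBasis ℝ (unitLattice F) with hb
  refine ⟨∑ i, ‖b i‖, Finset.sum_nonneg fun _ _ => norm_nonneg _, fun x => ?_⟩
  have h1 : ((ZSpan.floor b x : Submodule.span ℤ (Set.range b)) : logSpace F) ∈ unitLattice F := by
    rw [← (basisUnitLattice F).ofZLatticeBasis_span ℝ (unitLattice F)]
    exact (ZSpan.floor b x).2
  obtain ⟨u, -, hu⟩ := h1
  refine ⟨u.toMul, fun w => ?_⟩
  have h2 := ZSpan.norm_fract_le b x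
  rw [ZSpan.fract_apply, ← hu] at h2
  have h3 := (pi_norm_le_iff_of_nonneg
    (Finset.sum_nonneg fun _ _ => norm_nonneg _ : 0 ≤ ∑ i, ‖b i‖)).1 h2 w
  rw [Real.norm_eq_abs, Pi.sub_apply, abs_sub_comm] at h3
  exact h3

theorem unb : Pool.Agent.H68K.PR.S_UNB := by
  intro F _ _
  obtain ⟨C₀, hC₀, hn⟩ := near F
  set N : ℕ := Fintype.card (InfinitePlace F) with hN
  have hN1 : (1 : ℝ) ≤ N := by
    have : 0 < N := Fintype.card_pos
    exact_mod_cast this
  refine ⟨Real.exp (C₀ * N), Real.one_le_exp (by positivity), fun R hR l hl hprod => ?_⟩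
  obtain ⟨u, hu⟩ := hn fun w => (w.1.mult : ℝ) * (Real.log l - Real.log (R w.1))
  refine ⟨u, ?_⟩
  have hup : ∀ v : InfinitePlace F, 0 < v ((u : 𝓞 F) : F) := fun v => Units.pos_at_place u v
  -- the logarithms
  set D : InfinitePlace F → ℝ := fun v =>
    (v.mult : ℝ) * (Real.log (v ((u : 𝓞 F) : F)) + Real.log (R v) - Real.log l) with hD
  have hm1 : ∀ v : InfinitePlace F, (1 : ℝ) ≤ (v.mult : ℝ) := by
    intro v
    have : 0 < v.mult := v.mult_pos
    exact_mod_cast this
  have h1 : ∀ v : InfinitePlace F, v ≠ w₀ → |D v| ≤ C₀ := by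
    intro v hv
    have := hu ⟨v, hv⟩
    rw [logEmbedding_component] at this
    simp only [hD]
    convert! this using 2
    ring
  have hsum : ∑ v, D v = 0 := by
    have e1 : ∑ v : InfinitePlace F, (v.mult : ℝ) * Real.log (v ((u : 𝓞 F) : F)) = 0 :=
      sum_mult_mul_log u
    have e2 : ∑ v : InfinitePlace F, (v.mult : ℝ) * Real.log (R v) =
        Module.finrank ℚ F * Real.log l := by
      rw [← Real.log_pow, hprod, Real.log_prod fun v _ => (pow_pos (hR v) _).ne']
      exact Finset.sum_congr rfl fun v _ => by rw [Real.log_pow]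
    have e3 : ∑ v : InfinitePlace F, (v.mult : ℝ) = Module.finrank ℚ F := by
      rw [← Nat.cast_sum, sum_mult_eq]
    calc ∑ v, D v = ∑ v : InfinitePlace F, (v.mult : ℝ) * Real.log (v ((u : 𝓞 F) : F)) +
          ∑ v : InfinitePlace F, (v.mult : ℝ) * Real.log (R v) -
          (∑ v : InfinitePlace F, (v.mult : ℝ)) * Real.log l := by
          rw [Finset.sum_mul, ← Finset.sum_add_distrib, ← Finset.sum_sub_distrib]
          exact Finset.sum_congr rfl fun v _ => by simp only [hD]; ring
      _ = 0 := by rw [e1, e2, e3]; ring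
  have h2 : |D w₀| ≤ C₀ * N := by
    have e1 : D w₀ = - ∑ v ∈ Finset.univ.erase w₀, D v := by
      rw [← Finset.add_sum_erase Finset.univ D (Finset.mem_univ w₀)] at hsum
      linarith
    rw [e1, abs_neg]
    calc |∑ v ∈ Finset.univ.erase w₀, D v| ≤ ∑ v ∈ Finset.univ.erase w₀, |D v| :=
          Finset.abs_sum_le_sum_abs _ _
      _ ≤ ∑ v ∈ Finset.univ.erase (w₀ : InfinitePlace F), C₀ :=
          Finset.sum_le_sum fun v hv => h1 v (Finset.ne_of_mem_erase hv)
      _ = (Finset.univ.erase (w₀ : InfinitePlace F)).card * C₀ := by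
          rw [Finset.sum_const, nsmul_eq_mul]
      _ ≤ N * C₀ := by
          refine mul_le_mul_of_nonneg_right ?_ hC₀
          have : (Finset.univ.erase (w₀ : InfinitePlace F)).card ≤ N := by
            rw [hN, ← Finset.card_univ]
            exact Finset.card_le_card (Finset.erase_subset _ _)
          exact_mod_cast this
      _ = C₀ * N := mul_comm _ _
  have h3 : ∀ v : InfinitePlace F,
      |Real.log (v ((u : 𝓞 F) : F)) + Real.log (R v) - Real.log l| ≤ C₀ * N := by
    intro v
    have e1 : |D v| ≤ C₀ * N := by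
      by_cases hv : v = w₀
      · rw [hv]; exact h2
      · exact (h1 v hv).trans (by nlinarith)
    have e2 : |Real.log (v ((u : 𝓞 F) : F)) + Real.log (R v) - Real.log l| ≤ |D v| := by
      simp only [hD]
      rw [abs_mul, Nat.abs_cast]
      exact le_mul_of_one_le_left (abs_nonneg _) (hm1 v)
    exact e2.trans e1
  intro v
  have h4 := abs_le.1 (h3 v)
  have e1 : v ((u : 𝓞 F) : F) * R v =
      Real.exp (Real.log (v ((u : 𝓞 F) : F)) + Real.log (R v)) := by
    rw [Real.exp_add, Real.exp_log (hup v), Real.exp_log (hR v)]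
  have e2 : l = Real.exp (Real.log l) := (Real.exp_log hl).symm
  constructor
  · rw [e1, ← Real.exp_add]
    nth_rewrite 1 [e2]
    exact Real.exp_le_exp.2 (by linarith [h4.1])
  · rw [e1]
    have e3 : Real.exp (C₀ * N) * l = Real.exp (C₀ * N + Real.log l) := by
      rw [Real.exp_add, Real.exp_log hl]
    rw [e3]
    exact Real.exp_le_exp.2 (by linarith [h4.2])

end Pool.Agent.H64.PR
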