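import Pool.Agent.H64.PR.Avg
import Pool.Agent.H68K.PR.StmQ

/-!
Project PR, phase 2, stub MIX: the distribution on the sets with exactly `i` elements.
-/

set_option autoImplicit false
set_option linter.all false

open scoped Classical
open Finset

namespace Pool.Agent.H64.PR

open Pool.Agent.H68K.PR

/-- The transition operator on functions. -/
noncomputable def U (g : ℕ → ℝ) (k : ℕ) : ℝ :=
  (2 : ℝ)⁻¹ ^ k * g (k + 1) + (1 - (2 : ℝ)⁻¹ ^ k) * g (k - 1)

lemma U_lin (c e : ℝ) (f g : ℕ → ℝ) :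
    U (fun k => c * f k + e * g k) = fun k => c * U f k + e * U g k := by
  funext k
  unfold U
  ring

lemma U_iter_lin (i : ℕ) : ∀ (c e : ℝ) (f g : ℕ → ℝ),
    U^[i] (fun k => c * f k + e * g k) = fun k => c * U^[i] f k + e * U^[i] g k := by
  induction i with
  | zero =>
    intro c e f g
    rfl
  | succ i ih =>
    intro c e f g
    rw [Function.iterate_succ_apply, U_lin, ih, Function.iterate_succ_apply,
      Function.iterate_succ_apply]

lemma half_pow (k : ℕ) : 0 < (2 : ℝ)⁻¹ ^ k ∧ (2 : ℝ)⁻¹ ^ k ≤ 1 :=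
  ⟨by positivity, pow_le_one₀ (by norm_num) (by norm_num)⟩

lemma U_bd {g : ℕ → ℝ} (h : ∀ k, |g k| ≤ 1) (k : ℕ) : |U g k| ≤ 1 := by
  unfold U
  obtain ⟨h1, h2⟩ := half_pow k
  refine (abs_add_le _ _).trans ?_
  rw [abs_mul, abs_mul, abs_of_pos h1, abs_of_nonneg (by linarith : 0 ≤ 1 - (2 : ℝ)⁻¹ ^ k)]
  have h3 := h (k + 1)
  have h4 := h (k - 1)
  nlinarith

/-- The indicator function of `k`. -/
noncomputable def ind (k : ℕ) (j : ℕ) : ℝ := if j = k then 1 else 0

lemma U_ind (k : ℕ) : U (ind k) = fun j => (1 - (2 : ℝ)⁻¹ ^ (k + 1)) * ind (k + 1) j +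
    (if k = 0 then 0 else (2 : ℝ)⁻¹ ^ (k - 1)) * ind (k - 1) j := by
  funext j
  unfold U ind
  rcases Nat.eq_zero_or_pos k with hk | hk
  · subst hk
    rw [if_neg (show ¬ j + 1 = 0 by omega), if_pos rfl]
    rcases Nat.eq_zero_or_pos j with hj | hj
    · subst hj
      norm_num
    · by_cases hj1 : j = 1
      · subst hj1
        norm_num
      · rw [if_neg (show ¬ j - 1 = 0 by omega), if_neg (show ¬ j = 0 + 1 by omega)]
        ring
  · rw [if_neg (show ¬ k = 0 by omega)]
    by_cases h1 : j + 1 = k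
    · rw [if_pos h1, if_neg (show ¬ j - 1 = k by omega), if_neg (show ¬ j = k + 1 by omega),
        if_pos (show j = k - 1 by omega), show k - 1 = j by omega]
      ring
    · by_cases h2 : j = k + 1
      · rw [if_neg h1, if_pos (show j - 1 = k by omega), if_pos h2,
          if_neg (show ¬ j = k - 1 by omega), h2]
        ring
      · rw [if_neg h1, if_neg (show ¬ j = k - 1 by omega), if_neg h2]
        by_cases h3 : j - 1 = k
        · omega
        · rw [if_neg h3]
          ring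

lemma chain_eq (a i : ℕ) : ∀ k, chain a i k = U^[i] (ind k) a := by
  induction i with
  | zero =>
    intro k
    show (if k = a then (1 : ℝ) else 0) = ind k a
    unfold ind
    by_cases h : k = a
    · rw [if_pos h, if_pos h.symm]
    · rw [if_neg h, if_neg (fun h' => h h'.symm)]
  | succ i ih =>
    intro k
    rw [Function.iterate_succ_apply, U_ind, U_iter_lin]
    show (1 - (2 : ℝ)⁻¹ ^ (k + 1)) * chain a i (k + 1) +
      (if k = 0 then 0 else (2 : ℝ)⁻¹ ^ (k - 1) * chain a i (k - 1)) = _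
    rw [ih, ih]
    by_cases h : k = 0
    · rw [if_pos h, if_pos h]
      ring
    · rw [if_neg h, if_neg h]

section

variable {ι : Type} [Fintype ι] (d : Finset ι → ℕ)

lemma av_zero (f : Finset ι → ℝ) : av 0 f = f ∅ := by
  unfold av
  simp

lemma step_g {m : ℕ} {δ : ℝ} (hm : m ≤ Fintype.card ι)
    (hs : ∀ J : Finset ι, J.card < m → ∀ q ∉ J, d (insert q J) = d J + 1 ∨ d (insert q J) + 1 = d J)
    (hr : ∀ J : Finset ι, J.card < m → |ro d J - (1 - (2 : ℝ)⁻¹ ^ d J)| ≤ δ) {i : ℕ} (hi : i < m)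
    {g : ℕ → ℝ} (hg : ∀ k, |g k| ≤ 1) :
    |av (i + 1) (fun J : Finset ι => g (d J)) - av i (fun J => U g (d J))| ≤ 2 * δ := by
  rw [av_succ (by omega), ← av_sub]
  refine av_abs (by omega) fun J hJ => ?_
  have h1 := hs J (by omega)
  have h2 := hr J (by omega)
  have hi0 : (0 : ℝ) < (Fintype.card ι : ℝ) - J.card := by
    have : (J.card : ℝ) < Fintype.card ι := by exact_mod_cast (show J.card < Fintype.card ι by omega)
    linarith
  have hc : ((Fintype.card ι : ℝ) - J.card) = ∑ q ∈ Jᶜ, (1 : ℝ) := by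
    rw [sum_const, nsmul_eq_mul, mul_one, card_compl, Nat.cast_sub (card_le_univ J)]
  have h3 : ∑ q ∈ Jᶜ, g (d (insert q J)) =
      g (d J + 1) * (((Fintype.card ι : ℝ) - J.card) - Dn d J) + g (d J - 1) * Dn d J := by
    rw [hc, Dn_eq, ← sum_sub_distrib, mul_sum, mul_sum, ← sum_add_distrib]
    refine sum_congr rfl fun q hq => ?_
    rw [mem_compl] at hq
    rcases h1 q hq with h | h
    · rw [if_neg (show ¬ (d (insert q J) + 1 = d J) by omega), h]
      ring
    · rw [if_pos h, show d (insert q J) = d J - 1 by omega]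
      ring
  have e2' : Dn d J = ro d J * ((Fintype.card ι : ℝ) - J.card) := by
    unfold ro
    field_simp
  rw [h3, ← hJ, e2']
  have e3 : (g (d J + 1) * (((Fintype.card ι : ℝ) - J.card) -
      ro d J * ((Fintype.card ι : ℝ) - J.card)) +
      g (d J - 1) * (ro d J * ((Fintype.card ι : ℝ) - J.card))) /
      ((Fintype.card ι : ℝ) - J.card) - U g (d J) =
      (g (d J - 1) - g (d J + 1)) * (ro d J - (1 - (2 : ℝ)⁻¹ ^ d J)) := by
    unfold U
    field_simp
    ring
  rw [e3, abs_mul]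
  have h4 : |g (d J - 1) - g (d J + 1)| ≤ 2 := by
    have h5 := hg (d J - 1)
    have h6 := hg (d J + 1)
    rw [abs_le] at h5 h6 ⊢
    constructor <;> linarith
  exact mul_le_mul h4 h2 (abs_nonneg _) (by norm_num)

lemma iter_g {m : ℕ} {δ : ℝ} (hm : m ≤ Fintype.card ι)
    (hs : ∀ J : Finset ι, J.card < m → ∀ q ∉ J, d (insert q J) = d J + 1 ∨ d (insert q J) + 1 = d J)
    (hr : ∀ J : Finset ι, J.card < m → |ro d J - (1 - (2 : ℝ)⁻¹ ^ d J)| ≤ δ) (i : ℕ) :
    i ≤ m → ∀ g : ℕ → ℝ, (∀ k, |g k| ≤ 1) →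
      |av i (fun J : Finset ι => g (d J)) - U^[i] g (d ∅)| ≤ i * (2 * δ) := by
  induction i with
  | zero =>
    intro _ g _
    rw [av_zero]
    simp
  | succ i ih =>
    intro hi g hg
    have h1 := ih (by omega) (U g) (U_bd hg)
    have h2 := step_g d hm hs hr (i := i) (by omega) hg
    rw [Function.iterate_succ_apply]
    have h3 : av (i + 1) (fun J : Finset ι => g (d J)) - U^[i] (U g) (d ∅) =
        (av (i + 1) (fun J : Finset ι => g (d J)) - av i (fun J => U g (d J))) +
        (av i (fun J : Finset ι => U g (d J)) - U^[i] (U g) (d ∅)) := by ring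
    rw [h3]
    refine (abs_add_le _ _).trans ?_
    push_cast
    linarith

end

/-- MIX. -/
theorem mix (hC : S_CHN) : S_MIX := by
  intro ε hε D₁
  choose f hf using fun a => hC a (ε / 2) (by positivity)
  obtain ⟨m₀, hm₀⟩ : ∃ m₀ : ℕ, ∀ a ≤ D₁, f a ≤ m₀ :=
    ⟨(range (D₁ + 1)).sup f, fun a ha => le_sup (f := f) (mem_range.2 (by omega))⟩
  refine ⟨m₀, fun m hm => ?_⟩
  obtain ⟨N, hN⟩ := exists_nat_ge (8 * (m : ℝ) ^ 2 / ε)
  refine ⟨ε / (8 * (m + 1)), max (m + 1) N, by positivity, (Nat.le_succ m).trans (le_max_left _ _), ?_⟩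
  intro ι _ d hn h0 hs hD i hi1 hi2 k
  have hmn : m + 1 ≤ Fintype.card ι := (le_max_left _ _).trans hn
  have hn0 : (0 : ℝ) < Fintype.card ι := by exact_mod_cast (show 0 < Fintype.card ι by omega)
  have hNn : 8 * (m : ℝ) ^ 2 / ε ≤ Fintype.card ι :=
    hN.trans (by exact_mod_cast (le_max_right _ _).trans hn)
  have hr : ∀ J : Finset ι, J.card < m → |ro d J - (1 - (2 : ℝ)⁻¹ ^ d J)| ≤
      ε / (8 * (m + 1)) + m / Fintype.card ι := fun J hJ =>
    ro_near d (by omega) (by positivity) (fun J hJ => hD J hJ) J hJ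
  have h1 := iter_g d (show m ≤ Fintype.card ι by omega) hs hr i hi2 (ind k) (fun j => by
    unfold ind
    split_ifs <;> norm_num)
  have h2 := hf (d ∅) i ((hm₀ _ h0).trans hi1) k
  rw [← chain_eq] at h1
  have h3 : av i (fun J : Finset ι => ind k (d J)) = pk d i k := rfl
  rw [h3, pk_eq] at h1
  have h4 : (i : ℝ) * (2 * (ε / (8 * (m + 1)) + m / Fintype.card ι)) ≤ ε / 2 := by
    have hi : (i : ℝ) ≤ m := by exact_mod_cast hi2
    have h5 : (m : ℝ) * (ε / (8 * (m + 1))) ≤ ε / 8 := by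
      rw [mul_div_assoc', div_le_div_iff₀ (by positivity) (by norm_num)]
      nlinarith [hε]
    have h6 : (m : ℝ) * (m / Fintype.card ι) ≤ ε / 8 := by
      rw [mul_div_assoc', div_le_div_iff₀ hn0 (by norm_num)]
      rw [div_le_iff₀ hε] at hNn
      nlinarith
    have h7 : (0 : ℝ) ≤ 2 * (ε / (8 * (m + 1)) + m / Fintype.card ι) := by positivity
    calc (i : ℝ) * (2 * (ε / (8 * (m + 1)) + m / Fintype.card ι))
        ≤ m * (2 * (ε / (8 * (m + 1)) + m / Fintype.card ι)) := mul_le_mul_of_nonneg_right hi h7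
      _ ≤ ε / 2 := by nlinarith
  have h8 : ((univ.filter fun J : Finset ι => J.card = i ∧ d J = k).card : ℝ) /
      ((Fintype.card ι).choose i : ℝ) - pr2par (d ∅ + i) k =
      (((univ.filter fun J : Finset ι => J.card = i ∧ d J = k).card : ℝ) /
      ((Fintype.card ι).choose i : ℝ) - chain (d ∅) i k) +
      (chain (d ∅) i k - pr2par (d ∅ + i) k) := by ring
  rw [h8]
  refine (abs_add_le _ _).trans ?_
  linarith

end Pool.Agent.H64.PR
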