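import Pool.Agent.H64.PR.Unb
import Pool.Agent.H64.PR.Tr
import Pool.Agent.N490.PF.Pts

/-!
# From balanced boxes to the height (S_HGT)
-/

set_option autoImplicit false
set_option linter.all false

open Polynomial NumberField NumberField.InfinitePlace
open Pool.Agent.N783.PF (Bd)
open Pool.Agent.H68K.PR
open scoped Classical

namespace Pool.Agent.H64.PR

theorem disc_ne {K : Type} [Field K] [CharZero K] {A B : K}
    (h : Irreducible (X ^ 3 + C A * X + C B : K[X])) : 4 * A ^ 3 + 27 * B ^ 2 ≠ 0 := by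
  intro h0
  have hd : (X ^ 3 + C A * X + C B : K[X]).degree = 3 := by compute_degree!
  have key : ∀ x : K, x ^ 3 + A * x + B ≠ 0 := by
    intro x hx
    have h1 := degree_eq_one_of_irreducible_of_root h (x := x)
      (by simp [IsRoot, hx])
    rw [hd] at h1
    exact absurd h1 (by norm_num)
  by_cases hA : A = 0
  · have hB : B = 0 := by
      rw [hA] at h0
      have : (27 : K) * B ^ 2 = 0 := by linear_combination h0
      rcases mul_eq_zero.1 this with h1 | h1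
      · norm_num at h1
      · exact pow_eq_zero_iff (two_ne_zero) |>.1 h1
    exact key 0 (by rw [hA, hB]; ring)
  · apply key (-3 * B / (2 * A))
    field_simp
    linear_combination (-B) * h0

section main

variable {F : Type} [Field F] [NumberField F]

theorem bd_iff (x : F) (R : ℝ) : Bd x R ↔ ∀ v : InfinitePlace F, v x ≤ R :=
  (InfinitePlace.le_iff_le x R).symm

/-- The radii. -/
noncomputable def Rv (Y : ℝ) (v : InfinitePlace F) : ℝ := Y ^ (1 / (12 * (v.mult : ℝ)))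

theorem Rv_pos {Y : ℝ} (hY : 0 < Y) (v : InfinitePlace F) : 0 < Rv Y v := Real.rpow_pos_of_pos hY _

theorem Rv_pow {Y : ℝ} (hY : 0 < Y) (v : InfinitePlace F) : Rv Y v ^ (12 * v.mult) = Y := by
  rw [Rv, ← Real.rpow_natCast, ← Real.rpow_mul hY.le]
  have : (0 : ℝ) < v.mult := by exact_mod_cast v.mult_pos
  push_cast
  rw [one_div, inv_mul_cancel₀ (by positivity), Real.rpow_one]

theorem Rv_pow_mult {Y : ℝ} (hY : 0 < Y) (v : InfinitePlace F) :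
    Rv Y v ^ v.mult = Y ^ (1 / 12 : ℝ) := by
  rw [Rv, ← Real.rpow_natCast, ← Real.rpow_mul hY.le]
  have : (0 : ℝ) < v.mult := by exact_mod_cast v.mult_pos
  congr 1
  field_simp

theorem hle_iff {Y : ℝ} (hY : 0 < Y) (p : 𝓞 F × 𝓞 F) :
    Hle Y p ↔ ∀ v : InfinitePlace F, v (p.1 : F) ≤ Rv Y v ^ 4 ∧ v (p.2 : F) ≤ Rv Y v ^ 6 := by
  unfold Hle
  refine forall_congr' fun v => ?_
  have hm : v.mult ≠ 0 := v.mult_pos.ne'
  have hR := (Rv_pos hY v).le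
  have e1 : (v (p.1 : F) ^ v.mult) ^ 3 ≤ Y ↔ v (p.1 : F) ≤ Rv Y v ^ 4 := by
    have h1 : Y = (Rv Y v ^ 4) ^ (v.mult * 3) := by
      rw [← pow_mul, show 4 * (v.mult * 3) = 12 * v.mult by ring, Rv_pow hY v]
    rw [← pow_mul]
    nth_rewrite 1 [h1]
    exact pow_le_pow_iff_left₀ (apply_nonneg v (p.1 : F)) (pow_nonneg hR _)
      (mul_ne_zero hm (by norm_num))
  have e2 : (v (p.2 : F) ^ v.mult) ^ 2 ≤ Y ↔ v (p.2 : F) ≤ Rv Y v ^ 6 := by
    have h1 : Y = (Rv Y v ^ 6) ^ (v.mult * 2) := by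
      rw [← pow_mul, show 6 * (v.mult * 2) = 12 * v.mult by ring, Rv_pow hY v]
    rw [← pow_mul]
    nth_rewrite 1 [h1]
    exact pow_le_pow_iff_left₀ (apply_nonneg v (p.2 : F)) (pow_nonneg hR _)
      (mul_ne_zero hm (by norm_num))
  rw [e1, e2]

/-- finiteness -/
theorem hle_fin (Y : ℝ) : {p : 𝓞 F × 𝓞 F | Hle Y p}.Finite := by
  obtain ⟨-, C, hC, -, h⟩ := Pool.Agent.N490.PF.pts F
  have hM : (0 : ℝ) ≤ max 1 Y := zero_le_one.trans (le_max_left _ _)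
  have h1 := (h ⊤ 0 (max 1 Y) top_ne_bot hM).1
  refine (h1.prod h1).subset ?_
  have key : ∀ (v : InfinitePlace F) (x : 𝓞 F) (k : ℕ), k ≠ 0 → (v (x : F) ^ v.mult) ^ k ≤ Y →
      v (x : F) ≤ max 1 Y := by
    intro v x k hk hx
    rcases le_or_gt (v (x : F)) 1 with h2 | h2
    · exact h2.trans (le_max_left _ _)
    · refine le_trans ?_ (hx.trans (le_max_right _ _))
      rw [← pow_mul]
      exact le_self_pow₀ h2.le (mul_ne_zero v.mult_pos.ne' hk)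
  rintro p hp
  refine ⟨⟨trivial, (bd_iff _ _).2 fun v => key v p.1 3 (by norm_num) (hp v).1⟩,
    ⟨trivial, (bd_iff _ _).2 fun v => key v p.2 2 (by norm_num) (hp v).2⟩⟩

/-- the balanced box -/
def bx (F : Type) [Field F] [NumberField F] (ρ : ℝ) : Set (𝓞 F × 𝓞 F) :=
  {p | Bd (p.1 : F) (ρ ^ 2) ∧ Bd (p.2 : F) (ρ ^ 3)}

theorem bx_fin (F : Type) [Field F] [NumberField F] : ∃ K : ℝ, 0 < K ∧ ∀ ρ : ℝ, 1 ≤ ρ →
    (bx F ρ).Finite ∧ ((bx F ρ).ncard : ℝ) ≤ K * ρ ^ (5 * Module.finrank ℚ F) := by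
  obtain ⟨-, C, hC, -, h⟩ := Pool.Agent.N490.PF.pts F
  refine ⟨4 * C ^ 2, by positivity, fun ρ hρ => ?_⟩
  have hρ0 : (0 : ℝ) ≤ ρ := zero_le_one.trans hρ
  have h1 := h ⊤ 0 (ρ ^ 2) top_ne_bot (by positivity)
  have h2 := h ⊤ 0 (ρ ^ 3) top_ne_bot (by positivity)
  have e : bx F ρ = {a : 𝓞 F | a - 0 ∈ (⊤ : Ideal (𝓞 F)) ∧ Bd (a : F) (ρ ^ 2)} ×ˢ
      {a : 𝓞 F | a - 0 ∈ (⊤ : Ideal (𝓞 F)) ∧ Bd (a : F) (ρ ^ 3)} := by
    ext p
    simp [bx]
  refine ⟨e ▸ h1.1.prod h2.1, ?_⟩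
  rw [e, Set.ncard_prod]
  push_cast
  have b1 := h1.2
  have b2 := h2.2
  rw [Ideal.absNorm_top, Nat.cast_one, div_one] at b1 b2
  set d := Module.finrank ℚ F
  have c1 : C * ((ρ ^ 2) ^ d + 1) ≤ 2 * C * (ρ ^ 2) ^ d := by
    have : (1 : ℝ) ≤ (ρ ^ 2) ^ d := one_le_pow₀ (one_le_pow₀ hρ)
    nlinarith
  have c2 : C * ((ρ ^ 3) ^ d + 1) ≤ 2 * C * (ρ ^ 3) ^ d := by
    have : (1 : ℝ) ≤ (ρ ^ 3) ^ d := one_le_pow₀ (one_le_pow₀ hρ)
    nlinarith
  calc _ ≤ (2 * C * (ρ ^ 2) ^ d) * (2 * C * (ρ ^ 3) ^ d) :=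
        mul_le_mul (b1.trans c1) (b2.trans c2) (Nat.cast_nonneg _) (by positivity)
    _ = 4 * C ^ 2 * ρ ^ (5 * d) := by
        rw [show 5 * d = 2 * d + 3 * d by ring, pow_add, pow_mul, pow_mul]
        ring

theorem map_box {Y : ℝ} (hY : 0 < Y) {C l : ℝ} (hC : 0 < C) (hl : 0 < l) (u : (𝓞 F)ˣ)
    (hu : ∀ v : InfinitePlace F, v ((u : 𝓞 F) : F) * Rv Y v ≤ C * l) (p : 𝓞 F × 𝓞 F)
    (hp : Hle Y p) : um u p ∈ bx F ((C * l) ^ 2) := by
  rw [hle_iff hY] at hp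
  constructor
  · rw [bd_iff]
    intro v
    have e : ((um u p).1 : F) = ((u : 𝓞 F) : F) ^ 4 * (p.1 : F) := by
      simp only [um, map_mul, map_pow]
    rw [e, map_mul, map_pow]
    calc v ((u : 𝓞 F) : F) ^ 4 * v (p.1 : F) ≤ v ((u : 𝓞 F) : F) ^ 4 * Rv Y v ^ 4 :=
          mul_le_mul_of_nonneg_left (hp v).1 (pow_nonneg (apply_nonneg _ _) _)
      _ = (v ((u : 𝓞 F) : F) * Rv Y v) ^ 4 := by ring
      _ ≤ (C * l) ^ 4 := pow_le_pow_left₀
          (mul_nonneg (apply_nonneg _ _) (Rv_pos hY v).le) (hu v) 4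
      _ = ((C * l) ^ 2) ^ 2 := by ring
  · rw [bd_iff]
    intro v
    have e : ((um u p).2 : F) = ((u : 𝓞 F) : F) ^ 6 * (p.2 : F) := by
      simp only [um, map_mul, map_pow]
    rw [e, map_mul, map_pow]
    calc v ((u : 𝓞 F) : F) ^ 6 * v (p.2 : F) ≤ v ((u : 𝓞 F) : F) ^ 6 * Rv Y v ^ 6 :=
          mul_le_mul_of_nonneg_left (hp v).2 (pow_nonneg (apply_nonneg _ _) _)
      _ = (v ((u : 𝓞 F) : F) * Rv Y v) ^ 6 := by ring
      _ ≤ (C * l) ^ 6 := pow_le_pow_left₀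
          (mul_nonneg (apply_nonneg _ _) (Rv_pos hY v).le) (hu v) 6
      _ = ((C * l) ^ 2) ^ 3 := by ring

theorem map_inv_box {Y : ℝ} (hY : 0 < Y) {C l : ℝ} (hC : 0 < C) (hl : 0 < l) (u : (𝓞 F)ˣ)
    (hu : ∀ v : InfinitePlace F, l ≤ C * (v ((u : 𝓞 F) : F) * Rv Y v)) (B : ℝ) (hB0 : 0 ≤ B)
    (hB : B ≤ (l / C) ^ 2) (p : 𝓞 F × 𝓞 F)
    (hp : p ∈ bx F B) : Hle Y (um u⁻¹ p) := by
  rw [hle_iff hY]
  intro v
  have hu0 : ((u : 𝓞 F) : F) ≠ 0 :=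
    (map_ne_zero_iff _ (FaithfulSMul.algebraMap_injective (𝓞 F) F)).2 u.ne_zero
  have hvu : 0 < v ((u : 𝓞 F) : F) := (InfinitePlace.pos_iff).2 hu0
  have hinv : v (((u⁻¹ : (𝓞 F)ˣ) : 𝓞 F) : F) * v ((u : 𝓞 F) : F) = 1 := by
    rw [← map_mul, ← map_mul, ← Units.val_mul, inv_mul_cancel, Units.val_one, map_one, map_one]
  have hi : v (((u⁻¹ : (𝓞 F)ˣ) : 𝓞 F) : F) = (v ((u : 𝓞 F) : F))⁻¹ := eq_inv_of_mul_eq_one_left hinv
  have hR := Rv_pos hY v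
  have h1 : l / C ≤ v ((u : 𝓞 F) : F) * Rv Y v := by
    rw [div_le_iff₀ hC, mul_comm]
    exact hu v
  have h2 : 0 ≤ l / C := by positivity
  have h3 : B ≤ (v ((u : 𝓞 F) : F) * Rv Y v) ^ 2 := hB.trans (pow_le_pow_left₀ h2 h1 2)
  constructor
  · have e : ((um u⁻¹ p).1 : F) = (((u⁻¹ : (𝓞 F)ˣ) : 𝓞 F) : F) ^ 4 * (p.1 : F) := by
      simp only [um, map_mul, map_pow]
    rw [e, map_mul, map_pow, hi]
    have h4 : v (p.1 : F) ≤ B ^ 2 := (bd_iff _ _).1 hp.1 v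
    have h5 : v (p.1 : F) ≤ ((v ((u : 𝓞 F) : F) * Rv Y v) ^ 2) ^ 2 :=
      h4.trans (pow_le_pow_left₀ hB0 h3 2)
    calc (v ((u : 𝓞 F) : F))⁻¹ ^ 4 * v (p.1 : F) ≤
          (v ((u : 𝓞 F) : F))⁻¹ ^ 4 * ((v ((u : 𝓞 F) : F) * Rv Y v) ^ 2) ^ 2 :=
          mul_le_mul_of_nonneg_left h5 (by positivity)
      _ = Rv Y v ^ 4 := by field_simp
  · have e : ((um u⁻¹ p).2 : F) = (((u⁻¹ : (𝓞 F)ˣ) : 𝓞 F) : F) ^ 6 * (p.2 : F) := by
      simp only [um, map_mul, map_pow]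
    rw [e, map_mul, map_pow, hi]
    have h4 : v (p.2 : F) ≤ B ^ 3 := (bd_iff _ _).1 hp.2 v
    have h5 : v (p.2 : F) ≤ ((v ((u : 𝓞 F) : F) * Rv Y v) ^ 2) ^ 3 :=
      h4.trans (pow_le_pow_left₀ hB0 h3 3)
    calc (v ((u : 𝓞 F) : F))⁻¹ ^ 6 * v (p.2 : F) ≤
          (v ((u : 𝓞 F) : F))⁻¹ ^ 6 * ((v ((u : 𝓞 F) : F) * Rv Y v) ^ 2) ^ 3 :=
          mul_le_mul_of_nonneg_left h5 (by positivity)
      _ = Rv Y v ^ 6 := by field_simp

end main

theorem hgt : S_HGT := by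
  intro F _ _ n ⟨c, hc, B₀, hB⟩
  obtain ⟨C, hC, hU⟩ := unb F
  obtain ⟨K, hK, hbx⟩ := bx_fin F
  have hC0 : 0 < C := zero_lt_one.trans_le hC
  set d : ℕ := Module.finrank ℚ F with hd
  have hd0 : 0 < d := Module.finrank_pos
  set N : ℕ := Fintype.card (InfinitePlace F) with hN
  have hN0 : 0 < N := Fintype.card_pos
  set e : ℝ := N / (12 * d) with he
  have he0 : 0 < e := by positivity
  have hlim : Filter.Tendsto (fun Y : ℝ => Y ^ e) Filter.atTop Filter.atTop :=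
    tendsto_rpow_atTop he0
  obtain ⟨Y₁, hY₁⟩ := Filter.eventually_atTop.1
    (hlim.eventually_ge_atTop (C * (B₀ + 1)))
  refine ⟨c / (K * (2 * C ^ 4) ^ (5 * d)), by positivity, max 1 Y₁, fun Y => ⟨hle_fin Y, ?_⟩⟩
  intro hY
  have hY1 : 1 ≤ Y := (le_max_left _ _).trans hY
  have hY0 : 0 < Y := zero_lt_one.trans_le hY1
  set l : ℝ := Y ^ e with hl
  have hl0 : 0 < l := Real.rpow_pos_of_pos hY0 _
  have hlB : C * (B₀ + 1) ≤ l := hY₁ Y ((le_max_right _ _).trans hY)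
  have hprod : l ^ d = ∏ v : InfinitePlace F, Rv Y v ^ v.mult := by
    rw [Finset.prod_congr rfl fun v _ => Rv_pow_mult hY0 v, Finset.prod_const, Finset.card_univ,
      ← hN, hl, ← Real.rpow_natCast, ← Real.rpow_mul hY0.le, ← Real.rpow_natCast,
      ← Real.rpow_mul hY0.le]
    congr 1
    rw [he]
    field_simp
  obtain ⟨u, hu⟩ := hU (Rv Y) (Rv_pos hY0) l hl0 hprod
  constructor
  · -- positivity
    rw [Set.ncard_pos ((hle_fin Y).subset fun p hp => hp.1)]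
    refine ⟨(0, 1), ?_, ?_⟩
    · rw [hle_iff hY0]
      intro v
      have h1 : 1 ≤ Rv Y v := Real.one_le_rpow hY1 (by positivity)
      constructor
      · simp only [map_zero]
        positivity
      · simp only [map_one]
        exact one_le_pow₀ h1
    · simp
  · -- the proportion
    set ρ : ℝ := (C * l) ^ 2 with hρ
    have hl1 : 1 ≤ l / C := by
      rw [le_div_iff₀ hC0]
      nlinarith [Nat.cast_nonneg (α := ℝ) B₀]
    have hlB' : (B₀ : ℝ) + 1 ≤ l / C := by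
      rw [le_div_iff₀ hC0]
      linarith
    have hρ1 : 1 ≤ ρ := by
      rw [hρ]
      have h1 : 1 ≤ l := by
        rw [le_div_iff₀ hC0] at hl1
        linarith
      exact one_le_pow₀ (one_le_mul_of_one_le_of_one_le hC h1)
    -- upper bound
    have hup : ({p : 𝓞 F × 𝓞 F | Hle Y p ∧ 4 * p.1 ^ 3 + 27 * p.2 ^ 2 ≠ 0}.ncard : ℝ) ≤
        K * ρ ^ (5 * d) := by
      refine le_trans ?_ (hbx ρ hρ1).2
      have : {p : 𝓞 F × 𝓞 F | Hle Y p ∧ 4 * p.1 ^ 3 + 27 * p.2 ^ 2 ≠ 0}.ncard ≤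
          (bx F ρ).ncard :=
        Set.ncard_le_ncard_of_injOn (um u)
          (fun p hp => map_box hY0 hC0 hl0 u (fun v => (hu v).2) p hp.1)
          (um_inj u).injOn (hbx ρ hρ1).1
      exact_mod_cast this
    -- lower bound
    set B : ℕ := ⌊(l / C) ^ 2⌋₊ with hBdef
    have hBle : (B : ℝ) ≤ (l / C) ^ 2 := Nat.floor_le (by positivity)
    have hsq : l / C ≤ (l / C) ^ 2 := le_self_pow₀ hl1 two_ne_zero
    have hBge : (l / C) ^ 2 ≤ 2 * (B : ℝ) := by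
      have h1 : (l / C) ^ 2 < B + 1 := Nat.lt_floor_add_one _
      have h2 : (1 : ℝ) ≤ B := by
        have : 1 ≤ B := Nat.le_floor (by push_cast; linarith)
        exact_mod_cast this
      linarith
    have hBB : B₀ ≤ B := Nat.le_floor (by linarith)
    have hlow : c * (B : ℝ) ^ (5 * d) ≤
        ({p : 𝓞 F × 𝓞 F | Hle Y p ∧ 4 * p.1 ^ 3 + 27 * p.2 ^ 2 ≠ 0 ∧ Gd n p}.ncard : ℝ) := by
      refine (hB B hBB).trans ?_
      have : {p : 𝓞 F × 𝓞 F | Bd (p.1 : F) ((B : ℝ) ^ 2) ∧ Bd (p.2 : F) ((B : ℝ) ^ 3) ∧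
          Gd n p}.ncard ≤
          {p : 𝓞 F × 𝓞 F | Hle Y p ∧ 4 * p.1 ^ 3 + 27 * p.2 ^ 2 ≠ 0 ∧ Gd n p}.ncard := by
        refine Set.ncard_le_ncard_of_injOn (um u⁻¹) ?_ (um_inj _).injOn
          ((hle_fin Y).subset fun p hp => hp.1)
        rintro p ⟨h1, h2, h3⟩
        have hG := gd_um u⁻¹ n p h3
        refine ⟨map_inv_box hY0 hC0 hl0 u (fun v => (hu v).1) B (Nat.cast_nonneg _) hBle p
          ⟨h1, h2⟩, ?_, hG⟩
        intro h0
        apply disc_ne hG.1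
        have h5 := congrArg (algebraMap (𝓞 F) F) h0
        rw [map_add, map_mul, map_mul, map_pow, map_pow, map_ofNat, map_ofNat, map_zero] at h5
        exact h5
      exact_mod_cast this
    refine le_trans ?_ hlow
    calc c / (K * (2 * C ^ 4) ^ (5 * d)) *
          ({p : 𝓞 F × 𝓞 F | Hle Y p ∧ 4 * p.1 ^ 3 + 27 * p.2 ^ 2 ≠ 0}.ncard : ℝ) ≤
          c / (K * (2 * C ^ 4) ^ (5 * d)) * (K * ρ ^ (5 * d)) :=
          mul_le_mul_of_nonneg_left hup (by positivity)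
      _ = c * (ρ / (2 * C ^ 4)) ^ (5 * d) := by
          rw [div_pow]
          field_simp
      _ ≤ c * (B : ℝ) ^ (5 * d) := by
          refine mul_le_mul_of_nonneg_left (pow_le_pow_left₀ (by positivity) ?_ _) hc.le
          have : ρ / (2 * C ^ 4) = (l / C) ^ 2 / 2 := by
            rw [hρ]
            field_simp
          rw [this]
          linarith

end Pool.Agent.H64.PR
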