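import Pool.Agent.H68K.PR.StmP

/-!
Project PR, phase 2, stub AVG: the average distribution of a function on the finite sets which
changes by one and goes down with the right proportion.
-/

set_option autoImplicit false
set_option linter.all false

open scoped Classical
open Finset

namespace Pool.Agent.H64.PR

open Pool.Agent.H68K.PR

section

variable {ι : Type} [Fintype ι]

/-- The average over the sets with `i` elements. -/
noncomputable def av (i : ℕ) (f : Finset ι → ℝ) : ℝ :=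
  (∑ J ∈ powersetCard i (univ : Finset ι), f J) / ((Fintype.card ι).choose i : ℝ)

lemma choose_pos' {i : ℕ} (hi : i ≤ Fintype.card ι) : (0 : ℝ) < ((Fintype.card ι).choose i : ℝ) := by
  exact_mod_cast Nat.choose_pos hi

lemma av_const {i : ℕ} (hi : i ≤ Fintype.card ι) (c : ℝ) : av (ι := ι) i (fun _ => c) = c := by
  unfold av
  rw [sum_const, card_powersetCard, card_univ, nsmul_eq_mul]
  have := choose_pos' hi
  field_simp

lemma av_add (i : ℕ) (f g : Finset ι → ℝ) : av i (fun J => f J + g J) = av i f + av i g := by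
  unfold av
  rw [sum_add_distrib, add_div]

lemma av_sub (i : ℕ) (f g : Finset ι → ℝ) : av i (fun J => f J - g J) = av i f - av i g := by
  unfold av
  rw [sum_sub_distrib, sub_div]

lemma av_smul (i : ℕ) (c : ℝ) (f : Finset ι → ℝ) : av i (fun J => c * f J) = c * av i f := by
  unfold av
  rw [← mul_sum, mul_div_assoc]

lemma av_congr {i : ℕ} {f g : Finset ι → ℝ} (h : ∀ J : Finset ι, J.card = i → f J = g J) :
    av i f = av i g := by
  unfold av
  congr 1
  exact sum_congr rfl fun J hJ => h J (mem_powersetCard.1 hJ).2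

lemma av_mono {i : ℕ} {f g : Finset ι → ℝ} (h : ∀ J : Finset ι, J.card = i → f J ≤ g J) :
    av i f ≤ av i g := by
  unfold av
  refine div_le_div_of_nonneg_right ?_ (Nat.cast_nonneg _)
  exact sum_le_sum fun J hJ => h J (mem_powersetCard.1 hJ).2

lemma av_abs {i : ℕ} (hi : i ≤ Fintype.card ι) {f : Finset ι → ℝ} {δ : ℝ}
    (h : ∀ J : Finset ι, J.card = i → |f J| ≤ δ) : |av i f| ≤ δ := by
  rw [abs_le]
  constructor
  · rw [← av_const hi (-δ)]
    exact av_mono fun J hJ => (abs_le.1 (h J hJ)).1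
  · rw [← av_const hi δ]
    exact av_mono fun J hJ => (abs_le.1 (h J hJ)).2

/-- Double counting. -/
lemma dc (i : ℕ) (f : Finset ι → ℝ) :
    ∑ J ∈ powersetCard i (univ : Finset ι), ∑ q ∈ Jᶜ, f (insert q J) =
      (i + 1 : ℝ) * ∑ J ∈ powersetCard (i + 1) (univ : Finset ι), f J := by
  have h1 : (i + 1 : ℝ) * ∑ J ∈ powersetCard (i + 1) (univ : Finset ι), f J =
      ∑ J ∈ powersetCard (i + 1) (univ : Finset ι), ∑ q ∈ J, f J := by
    rw [mul_sum]
    refine sum_congr rfl fun J hJ => ?_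
    rw [sum_const, (mem_powersetCard.1 hJ).2, nsmul_eq_mul]
    push_cast
    ring
  rw [h1, Finset.sum_sigma', Finset.sum_sigma']
  refine Finset.sum_bij' (fun x _ => ⟨insert x.2 x.1, x.2⟩) (fun x _ => ⟨x.1.erase x.2, x.2⟩)
    ?_ ?_ ?_ ?_ ?_
  · rintro ⟨J, q⟩ hx
    simp only [mem_sigma, mem_powersetCard, subset_univ, true_and, mem_compl] at hx ⊢
    exact ⟨by rw [card_insert_of_notMem hx.2, hx.1], mem_insert_self _ _⟩
  · rintro ⟨J, q⟩ hx
    simp only [mem_sigma, mem_powersetCard, subset_univ, true_and, mem_compl] at hx ⊢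
    exact ⟨by rw [card_erase_of_mem hx.2, hx.1]; rfl, notMem_erase _ _⟩
  · rintro ⟨J, q⟩ hx
    simp only [mem_sigma, mem_powersetCard, subset_univ, true_and, mem_compl] at hx
    simp [erase_insert hx.2]
  · rintro ⟨J, q⟩ hx
    simp only [mem_sigma, mem_powersetCard, subset_univ, true_and] at hx
    simp [insert_erase hx.2]
  · rintro ⟨J, q⟩ _
    rfl

lemma av_succ {i : ℕ} (hi : i + 1 ≤ Fintype.card ι) (f : Finset ι → ℝ) :
    av (i + 1) f = av i (fun J => (∑ q ∈ Jᶜ, f (insert q J)) / ((Fintype.card ι : ℝ) - i)) := by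
  have h0 : (0 : ℝ) < (Fintype.card ι : ℝ) - i := by
    have : ((i + 1 : ℕ) : ℝ) ≤ Fintype.card ι := by exact_mod_cast hi
    push_cast at this
    linarith
  have h1 := choose_pos' (ι := ι) hi
  have h2 := choose_pos' (ι := ι) (i := i) (by omega)
  have h3 : ((Fintype.card ι).choose (i + 1) : ℝ) * (i + 1) =
      ((Fintype.card ι).choose i : ℝ) * ((Fintype.card ι : ℝ) - i) := by
    have := Nat.choose_succ_right_eq (Fintype.card ι) i
    have h4 : (((Fintype.card ι).choose (i + 1) * (i + 1) : ℕ) : ℝ) =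
      (((Fintype.card ι).choose i * (Fintype.card ι - i) : ℕ) : ℝ) := by rw [this]
    push_cast [Nat.cast_sub (show i ≤ Fintype.card ι by omega)] at h4
    exact h4
  unfold av
  rw [← Finset.sum_div, dc, div_div, div_eq_div_iff h1.ne' (by positivity)]
  rw [mul_comm ((Fintype.card ι : ℝ) - i), ← h3]
  ring

variable (d : Finset ι → ℕ)

/-- The number of the elements which lower `d`. -/
noncomputable def Dn (J : Finset ι) : ℝ :=
  ((univ.filter fun q => q ∉ J ∧ d (insert q J) + 1 = d J).card : ℝ)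

/-- The proportion of the elements which lower `d`. -/
noncomputable def ro (J : Finset ι) : ℝ := Dn d J / ((Fintype.card ι : ℝ) - J.card)

lemma Dn_eq (J : Finset ι) :
    Dn d J = ∑ q ∈ Jᶜ, if d (insert q J) + 1 = d J then (1 : ℝ) else 0 := by
  unfold Dn
  rw [← sum_filter, sum_const, nsmul_eq_mul, mul_one]
  congr 2
  ext q
  simp

lemma ro_near {m : ℕ} {η : ℝ} (hm : m ≤ Fintype.card ι) (hη : 0 ≤ η)
    (hD : ∀ J : Finset ι, J.card < m → |Dn d J - (1 - (2 : ℝ)⁻¹ ^ d J) * Fintype.card ι| ≤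
      η * Fintype.card ι) (J : Finset ι) (hJ : J.card < m) :
    |ro d J - (1 - (2 : ℝ)⁻¹ ^ d J)| ≤ η + m / Fintype.card ι := by
  have hn : (0 : ℝ) < Fintype.card ι := by exact_mod_cast (show 0 < Fintype.card ι by omega)
  have hi : (0 : ℝ) < (Fintype.card ι : ℝ) - J.card := by
    have : (J.card : ℝ) < Fintype.card ι := by exact_mod_cast (show J.card < Fintype.card ι by omega)
    linarith
  have h1 : |Dn d J / Fintype.card ι - (1 - (2 : ℝ)⁻¹ ^ d J)| ≤ η := by
    have h2 : Dn d J / Fintype.card ι - (1 - (2 : ℝ)⁻¹ ^ d J) =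
        (Dn d J - (1 - (2 : ℝ)⁻¹ ^ d J) * Fintype.card ι) / Fintype.card ι := by
      field_simp
    rw [h2, abs_div, abs_of_pos hn, div_le_iff₀ hn]
    exact hD J hJ
  have hle : Dn d J ≤ (Fintype.card ι : ℝ) - J.card := by
    have h3 : (univ.filter fun q => q ∉ J ∧ d (insert q J) + 1 = d J).card ≤ Jᶜ.card :=
      card_le_card fun q hq => by
        rw [mem_compl]
        exact (mem_filter.1 hq).2.1
    rw [card_compl] at h3
    have h4 : ((univ.filter fun q => q ∉ J ∧ d (insert q J) + 1 = d J).card : ℝ) ≤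
        ((Fintype.card ι - J.card : ℕ) : ℝ) := by exact_mod_cast h3
    rwa [Nat.cast_sub (by omega)] at h4
  have h0 : 0 ≤ Dn d J := Nat.cast_nonneg _
  have h5 : |ro d J - Dn d J / Fintype.card ι| ≤ m / Fintype.card ι := by
    have h6 : ro d J - Dn d J / Fintype.card ι =
        (ro d J) * (J.card / Fintype.card ι) := by
      unfold ro
      field_simp
      ring
    have h7 : ro d J ≤ 1 := (div_le_one hi).2 hle
    have h8 : 0 ≤ ro d J := div_nonneg h0 hi.le
    rw [h6, abs_of_nonneg (by positivity)]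
    have h9 : (J.card : ℝ) / Fintype.card ι ≤ m / Fintype.card ι := by
      refine div_le_div_of_nonneg_right ?_ hn.le
      exact_mod_cast hJ.le
    have h10 : (0 : ℝ) ≤ (J.card : ℝ) / Fintype.card ι := by positivity
    nlinarith
  calc |ro d J - (1 - (2 : ℝ)⁻¹ ^ d J)|
      = |(ro d J - Dn d J / Fintype.card ι) + (Dn d J / Fintype.card ι - (1 - (2 : ℝ)⁻¹ ^ d J))| := by
        ring_nf
    _ ≤ _ := (abs_add_le _ _).trans (by linarith)

/-- The proportion of the sets with `d J = k`. -/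
noncomputable def pk (i k : ℕ) : ℝ := av i fun J => if d J = k then (1 : ℝ) else 0

/-- The proportion of the sets with `k ≤ d J`. -/
noncomputable def tk (i k : ℕ) : ℝ := av i fun J => if k ≤ d J then (1 : ℝ) else 0

lemma step_sum (J : Finset ι) (k : ℕ)
    (hs : ∀ q ∉ J, d (insert q J) = d J + 1 ∨ d (insert q J) + 1 = d J) :
    (∑ q ∈ Jᶜ, if k + 1 ≤ d (insert q J) then (1 : ℝ) else 0) =
      ((Fintype.card ι : ℝ) - J.card) * (if k + 1 ≤ d J then 1 else 0) -
      Dn d J * (if d J = k + 1 then 1 else 0) +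
      ((Fintype.card ι : ℝ) - J.card - Dn d J) * (if d J = k then 1 else 0) := by
  have hc : ((Fintype.card ι : ℝ) - J.card) = ∑ q ∈ Jᶜ, (1 : ℝ) := by
    rw [sum_const, nsmul_eq_mul, mul_one, card_compl, Nat.cast_sub (card_le_univ J)]
  rw [hc, Dn_eq, ← sum_sub_distrib, sum_mul, sum_mul, sum_mul, ← sum_sub_distrib, ← sum_add_distrib]
  refine sum_congr rfl fun q hq => ?_
  rw [mem_compl] at hq
  rcases hs q hq with h | h
  · have e1 : ¬ (d (insert q J) + 1 = d J) := by omega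
    rw [if_neg e1]
    by_cases h1 : k + 1 ≤ d J
    · rw [if_pos (show k + 1 ≤ d (insert q J) by omega), if_pos h1, if_neg (show ¬ d J = k by omega)]
      ring
    · by_cases h2 : d J = k
      · rw [if_pos (show k + 1 ≤ d (insert q J) by omega), if_neg h1, if_pos h2]
        ring
      · rw [if_neg (show ¬ k + 1 ≤ d (insert q J) by omega), if_neg h1, if_neg h2]
        ring
  · rw [if_pos h]
    by_cases h1 : k + 1 ≤ d J
    · rw [if_pos h1, if_neg (show ¬ d J = k by omega)]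
      by_cases h2 : d J = k + 1
      · rw [if_pos h2, if_neg (show ¬ k + 1 ≤ d (insert q J) by omega)]
        ring
      · rw [if_neg h2, if_pos (show k + 1 ≤ d (insert q J) by omega)]
        ring
    · rw [if_neg (show ¬ k + 1 ≤ d (insert q J) by omega), if_neg h1,
        if_neg (show ¬ d J = k + 1 by omega)]
      ring

lemma step_t {m : ℕ} {δ : ℝ} (hm : m ≤ Fintype.card ι) (hδ : 0 ≤ δ)
    (hs : ∀ J : Finset ι, J.card < m → ∀ q ∉ J, d (insert q J) = d J + 1 ∨ d (insert q J) + 1 = d J)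
    (hr : ∀ J : Finset ι, J.card < m → |ro d J - (1 - (2 : ℝ)⁻¹ ^ d J)| ≤ δ) {i : ℕ} (hi : i < m)
    (k : ℕ) :
    |tk d (i + 1) (k + 1) - tk d i (k + 1) + (1 - (2 : ℝ)⁻¹ ^ (k + 1)) * pk d i (k + 1) -
      (2 : ℝ)⁻¹ ^ k * pk d i k| ≤ δ := by
  have e : tk d (i + 1) (k + 1) - tk d i (k + 1) + (1 - (2 : ℝ)⁻¹ ^ (k + 1)) * pk d i (k + 1) -
      (2 : ℝ)⁻¹ ^ k * pk d i k = av i (fun J =>
        ((∑ q ∈ Jᶜ, if k + 1 ≤ d (insert q J) then (1 : ℝ) else 0) / ((Fintype.card ι : ℝ) - i) -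
        (if k + 1 ≤ d J then (1 : ℝ) else 0) +
        (1 - (2 : ℝ)⁻¹ ^ (k + 1)) * (if d J = k + 1 then (1 : ℝ) else 0)) -
        (2 : ℝ)⁻¹ ^ k * (if d J = k then (1 : ℝ) else 0)) := by
    rw [av_sub, av_add, av_sub, av_smul, av_smul]
    unfold tk pk
    rw [av_succ (by omega)]
  rw [e]
  refine av_abs (by omega) fun J hJ => ?_
  have h1 := hs J (by omega)
  have h2 := hr J (by omega)
  have hi0 : (0 : ℝ) < (Fintype.card ι : ℝ) - J.card := by
    have : (J.card : ℝ) < Fintype.card ι := by exact_mod_cast (show J.card < Fintype.card ι by omega)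
    linarith
  rw [step_sum d J k h1, ← hJ]
  have e2 : Dn d J = ro d J * ((Fintype.card ι : ℝ) - J.card) := by
    unfold ro
    field_simp
  rw [e2]
  by_cases h3 : d J = k + 1
  · rw [if_pos h3, if_neg (show ¬ d J = k by omega), if_pos (show k + 1 ≤ d J by omega)]
    rw [h3] at h2
    have e3 : (((Fintype.card ι : ℝ) - J.card) * 1 - ro d J * ((Fintype.card ι : ℝ) - J.card) * 1 +
        ((Fintype.card ι : ℝ) - J.card - ro d J * ((Fintype.card ι : ℝ) - J.card)) * 0) /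
        ((Fintype.card ι : ℝ) - J.card) - 1 + (1 - (2 : ℝ)⁻¹ ^ (k + 1)) * 1 - (2 : ℝ)⁻¹ ^ k * 0 =
        -(ro d J - (1 - (2 : ℝ)⁻¹ ^ (k + 1))) := by
      field_simp
      ring
    rw [e3, abs_neg]
    exact h2
  · rw [if_neg h3]
    by_cases h4 : d J = k
    · rw [if_pos h4, if_neg (show ¬ k + 1 ≤ d J by omega)]
      rw [h4] at h2
      have e3 : (((Fintype.card ι : ℝ) - J.card) * 0 - ro d J * ((Fintype.card ι : ℝ) - J.card) * 0 +
          ((Fintype.card ι : ℝ) - J.card - ro d J * ((Fintype.card ι : ℝ) - J.card)) * 1) /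
          ((Fintype.card ι : ℝ) - J.card) - 0 + (1 - (2 : ℝ)⁻¹ ^ (k + 1)) * 0 - (2 : ℝ)⁻¹ ^ k * 1 =
          -(ro d J - (1 - (2 : ℝ)⁻¹ ^ k)) := by
        field_simp
        ring
      rw [e3, abs_neg]
      exact h2
    · rw [if_neg h4]
      have e3 : (((Fintype.card ι : ℝ) - J.card) * (if k + 1 ≤ d J then (1 : ℝ) else 0) -
          ro d J * ((Fintype.card ι : ℝ) - J.card) * 0 +
          ((Fintype.card ι : ℝ) - J.card - ro d J * ((Fintype.card ι : ℝ) - J.card)) * 0) /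
          ((Fintype.card ι : ℝ) - J.card) - (if k + 1 ≤ d J then (1 : ℝ) else 0) +
          (1 - (2 : ℝ)⁻¹ ^ (k + 1)) * 0 - (2 : ℝ)⁻¹ ^ k * 0 = 0 := by
        field_simp
        ring
      rw [e3, abs_zero]
      exact hδ

/-- The mean of `2 ^ d`. -/
noncomputable def e2 (i : ℕ) : ℝ := av i fun J => (2 : ℝ) ^ d J

lemma step_e {m : ℕ} {δ : ℝ} (hm : m ≤ Fintype.card ι) (hδ : δ ≤ 1 / 6)
    (hs : ∀ J : Finset ι, J.card < m → ∀ q ∉ J, d (insert q J) = d J + 1 ∨ d (insert q J) + 1 = d J)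
    (hr : ∀ J : Finset ι, J.card < m → |ro d J - (1 - (2 : ℝ)⁻¹ ^ d J)| ≤ δ) {i : ℕ} (hi : i < m) :
    e2 d (i + 1) ≤ 3 / 4 * e2 d i + 3 / 2 := by
  have e : 3 / 4 * e2 d i + 3 / 2 = av (ι := ι) i (fun J => 3 / 4 * (2 : ℝ) ^ d J + 3 / 2) := by
    rw [av_add, av_smul, av_const (by omega)]
    rfl
  rw [e]
  unfold e2
  rw [av_succ (by omega)]
  refine av_mono fun J hJ => ?_
  have h1 := hs J (by omega)
  have h2 := hr J (by omega)
  have hi0 : (0 : ℝ) < (Fintype.card ι : ℝ) - J.card := by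
    have : (J.card : ℝ) < Fintype.card ι := by exact_mod_cast (show J.card < Fintype.card ι by omega)
    linarith
  have hc : ((Fintype.card ι : ℝ) - J.card) = ∑ q ∈ Jᶜ, (1 : ℝ) := by
    rw [sum_const, nsmul_eq_mul, mul_one, card_compl, Nat.cast_sub (card_le_univ J)]
  have h3 : ∑ q ∈ Jᶜ, (2 : ℝ) ^ d (insert q J) =
      2 * 2 ^ d J * ((Fintype.card ι : ℝ) - J.card) - 3 / 2 * 2 ^ d J * Dn d J := by
    rw [hc, Dn_eq, mul_sum, mul_sum, ← sum_sub_distrib]
    refine sum_congr rfl fun q hq => ?_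
    rw [mem_compl] at hq
    rcases h1 q hq with h | h
    · rw [if_neg (show ¬ (d (insert q J) + 1 = d J) by omega), h, pow_succ]
      ring
    · rw [if_pos h, ← h, pow_succ]
      ring
  have e2' : Dn d J = ro d J * ((Fintype.card ι : ℝ) - J.card) := by
    unfold ro
    field_simp
  rw [h3, ← hJ, e2']
  have e3 : (2 * 2 ^ d J * ((Fintype.card ι : ℝ) - J.card) -
      3 / 2 * 2 ^ d J * (ro d J * ((Fintype.card ι : ℝ) - J.card))) /
      ((Fintype.card ι : ℝ) - J.card) = 2 * 2 ^ d J - 3 / 2 * 2 ^ d J * ro d J := by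
    field_simp
  rw [e3]
  have h4 := (abs_le.1 h2).1
  have h5 : (0 : ℝ) < 2 ^ d J := by positivity
  have h6 : (2 : ℝ) ^ d J * (2 : ℝ)⁻¹ ^ d J = 1 := by
    rw [← mul_pow]
    norm_num
  nlinarith

lemma e2_le {m : ℕ} {δ : ℝ} (hm : m ≤ Fintype.card ι) (hδ : δ ≤ 1 / 6)
    (hs : ∀ J : Finset ι, J.card < m → ∀ q ∉ J, d (insert q J) = d J + 1 ∨ d (insert q J) + 1 = d J)
    (hr : ∀ J : Finset ι, J.card < m → |ro d J - (1 - (2 : ℝ)⁻¹ ^ d J)| ≤ δ) {D₁ : ℕ}
    (h0 : d ∅ ≤ D₁) : ∀ i ≤ m, e2 d i ≤ 2 ^ D₁ + 6 := by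
  intro i
  induction i with
  | zero =>
    intro _
    have h1 : e2 d 0 = (2 : ℝ) ^ d ∅ := by
      unfold e2 av
      simp
    rw [h1]
    have h2 : (2 : ℝ) ^ d ∅ ≤ 2 ^ D₁ := pow_le_pow_right₀ (by norm_num) h0
    linarith
  | succ i ih =>
    intro hi
    have h1 := ih (by omega)
    have h2 := step_e d hm hδ hs hr (i := i) (by omega)
    have h3 : (0 : ℝ) < 2 ^ D₁ := by positivity
    linarith

lemma tk_nonneg (i k : ℕ) : 0 ≤ tk d i k := by
  unfold tk av
  refine div_nonneg (sum_nonneg fun J _ => ?_) (Nat.cast_nonneg _)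
  split_ifs <;> norm_num

lemma pk_nonneg (i k : ℕ) : 0 ≤ pk d i k := by
  unfold pk av
  refine div_nonneg (sum_nonneg fun J _ => ?_) (Nat.cast_nonneg _)
  split_ifs <;> norm_num

lemma tk_le_one {i : ℕ} (hi : i ≤ Fintype.card ι) (k : ℕ) : tk d i k ≤ 1 := by
  unfold tk
  refine (av_mono (g := fun _ => (1 : ℝ)) fun J _ => ?_).trans (av_const hi 1).le
  split_ifs <;> norm_num

lemma tk_le {i : ℕ} (k : ℕ) : tk d i k ≤ e2 d i / 2 ^ k := by
  unfold tk e2
  rw [div_eq_inv_mul, ← av_smul]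
  refine av_mono fun J _ => ?_
  split_ifs with h
  · rw [← div_eq_inv_mul, one_le_div (by positivity)]
    exact pow_le_pow_right₀ (by norm_num) h
  · positivity

lemma sum_pk {i : ℕ} (hi : i ≤ Fintype.card ι) (K : ℕ) :
    ∑ k ∈ range K, pk d i k = 1 - tk d i K := by
  induction K with
  | zero =>
    have : tk d i 0 = 1 := by
      unfold tk
      simp only [Nat.zero_le, if_true]
      exact av_const hi 1
    rw [this]
    simp
  | succ K ih =>
    rw [sum_range_succ, ih]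
    have h : tk d i K = tk d i (K + 1) + pk d i K := by
      unfold tk pk
      rw [← av_add]
      refine av_congr fun J _ => ?_
      by_cases h1 : d J = K
      · rw [if_pos (show K ≤ d J by omega), if_neg (show ¬ K + 1 ≤ d J by omega), if_pos h1]
        norm_num
      · rw [if_neg h1]
        by_cases h2 : K ≤ d J
        · rw [if_pos h2, if_pos (show K + 1 ≤ d J by omega)]
          norm_num
        · rw [if_neg h2, if_neg (show ¬ K + 1 ≤ d J by omega)]
          norm_num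
    linarith

lemma pk_eq (i k : ℕ) : pk d i k = ((univ.filter fun J : Finset ι => J.card = i ∧ d J = k).card : ℝ) /
    ((Fintype.card ι).choose i : ℝ) := by
  unfold pk av
  congr 1
  rw [← sum_filter, sum_const, nsmul_eq_mul, mul_one]
  congr 2
  ext J
  simp [mem_powersetCard]

/-- The mean of the proportions. -/
noncomputable def pb (m k : ℕ) : ℝ := (∑ i ∈ range m, pk d i k) / m

lemma pb_rec {m : ℕ} {δ : ℝ} (hm0 : 0 < m) (hm : m ≤ Fintype.card ι) (hδ : 0 ≤ δ)
    (hs : ∀ J : Finset ι, J.card < m → ∀ q ∉ J, d (insert q J) = d J + 1 ∨ d (insert q J) + 1 = d J)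
    (hr : ∀ J : Finset ι, J.card < m → |ro d J - (1 - (2 : ℝ)⁻¹ ^ d J)| ≤ δ) (k : ℕ) :
    |(1 - (2 : ℝ)⁻¹ ^ (k + 1)) * pb d m (k + 1) - (2 : ℝ)⁻¹ ^ k * pb d m k| ≤ δ + 1 / m := by
  have hm' : (0 : ℝ) < m := by exact_mod_cast hm0
  have h1 : ∑ i ∈ range m, (tk d (i + 1) (k + 1) - tk d i (k + 1)) =
      tk d m (k + 1) - tk d 0 (k + 1) := Finset.sum_range_sub (fun i => tk d i (k + 1)) m
  have h2 : |∑ i ∈ range m, (tk d (i + 1) (k + 1) - tk d i (k + 1) +
      (1 - (2 : ℝ)⁻¹ ^ (k + 1)) * pk d i (k + 1) - (2 : ℝ)⁻¹ ^ k * pk d i k)| ≤ m * δ := by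
    refine (abs_sum_le_sum_abs _ _).trans ?_
    refine (sum_le_sum fun i hi => step_t d hm hδ hs hr (mem_range.1 hi) k).trans ?_
    rw [sum_const, card_range, nsmul_eq_mul]
  have h3 : ∑ i ∈ range m, (tk d (i + 1) (k + 1) - tk d i (k + 1) +
      (1 - (2 : ℝ)⁻¹ ^ (k + 1)) * pk d i (k + 1) - (2 : ℝ)⁻¹ ^ k * pk d i k) =
      (tk d m (k + 1) - tk d 0 (k + 1)) + m * ((1 - (2 : ℝ)⁻¹ ^ (k + 1)) * pb d m (k + 1) -
        (2 : ℝ)⁻¹ ^ k * pb d m k) := by
    rw [sum_sub_distrib, sum_add_distrib, h1, ← mul_sum, ← mul_sum]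
    unfold pb
    field_simp
    ring
  rw [h3] at h2
  have h4 := tk_nonneg d m (k + 1)
  have h5 := tk_nonneg d 0 (k + 1)
  have h6 := tk_le_one d hm (k + 1)
  have h7 := tk_le_one d (i := 0) (by omega) (k + 1)
  have h8 : |m * ((1 - (2 : ℝ)⁻¹ ^ (k + 1)) * pb d m (k + 1) - (2 : ℝ)⁻¹ ^ k * pb d m k)| ≤
      m * δ + 1 := by
    rw [abs_le] at h2 ⊢
    constructor <;> linarith
  rw [abs_mul, abs_of_pos hm'] at h8
  have h9 : m * δ + 1 = m * (δ + 1 / m) := by
    field_simp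
  rw [h9] at h8
  exact le_of_mul_le_mul_left h8 hm'

lemma pb_sum {m : ℕ} (hm0 : 0 < m) (hm : m ≤ Fintype.card ι) (K : ℕ) :
    ∑ k ∈ range K, pb d m k = 1 - (∑ i ∈ range m, tk d i K) / m := by
  have hm' : (0 : ℝ) < m := by exact_mod_cast hm0
  unfold pb
  rw [← Finset.sum_div, sum_comm, sum_congr rfl fun i hi => sum_pk d (by
    have := mem_range.1 hi
    omega) K, sum_sub_distrib, sum_const, card_range, nsmul_eq_mul]
  field_simp

end

/-- The recursion and the tail bound determine the distribution. -/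
lemma fin_real (hE : S_EUL) (ε : ℝ) (hε : 0 < ε) (M : ℝ) (hM : 0 ≤ M) :
    ∃ δ : ℝ, 0 < δ ∧ ∀ p : ℕ → ℝ, (∀ k, 0 ≤ p k) →
      (∀ k, |(1 - (2 : ℝ)⁻¹ ^ (k + 1)) * p (k + 1) - (2 : ℝ)⁻¹ ^ k * p k| ≤ δ) →
      (∀ K, ∑ k ∈ range K, p k ≤ 1) → (∀ K, 1 - M / 2 ^ K ≤ ∑ k ∈ range K, p k) →
      ∀ k, |p k - pr2 k| ≤ ε := by
  obtain ⟨hpos, hsum, -⟩ := hE
  obtain ⟨c, hc⟩ : ∃ c : ℝ, c = ∏' j : ℕ, (1 + (2 : ℝ)⁻¹ ^ j)⁻¹ := ⟨_, rfl⟩
  obtain ⟨a, ha⟩ : ∃ a : ℕ → ℝ, a = fun k => ∏ i ∈ range k, (2 / ((2 : ℝ) ^ (i + 1) - 1)) := ⟨_, rfl⟩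
  have hpr : ∀ k, pr2 k = c * a k := fun k => by rw [hc, ha]; rfl
  have ha0 : a 0 = 1 := by rw [ha]; simp
  have hc0 : 0 < c := by
    have := hpos 0
    rwa [hpr, ha0, mul_one] at this
  have hle1 : ∀ k, pr2 k ≤ 1 := fun k => le_hasSum hsum k fun j _ => (hpos j).le
  have hc1 : c ≤ 1 := by
    have := hle1 0
    rwa [hpr, ha0, mul_one] at this
  have hapos : ∀ k, 0 < a k := fun k => by
    have := hpos k
    rw [hpr] at this
    exact (mul_pos_iff_of_pos_left hc0).1 this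
  have hale : ∀ k, a k ≤ 1 / c := fun k => by
    rw [le_div_iff₀ hc0, mul_comm, ← hpr]
    exact hle1 k
  obtain ⟨e, he⟩ : ∃ e : ℝ, e = ε * c / 4 := ⟨_, rfl⟩
  have he0 : 0 < e := by rw [he]; positivity
  have heε : e ≤ ε := by
    rw [he]
    nlinarith
  have hlim := hsum.tendsto_sum_nat
  obtain ⟨K₀, hK₀⟩ := Metric.tendsto_atTop.1 hlim e he0
  obtain ⟨K₁, hK₁⟩ : ∃ K₁ : ℕ, M / e < 2 ^ K₁ := pow_unbounded_of_one_lt _ (by norm_num)
  obtain ⟨K, hK⟩ : ∃ K : ℕ, K = max (max K₀ K₁) 1 := ⟨_, rfl⟩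
  have hKK0 : K₀ ≤ K := by omega
  have hKK1 : K₁ ≤ K := by omega
  have hK1 : 1 ≤ K := by omega
  have hMK : ∀ j, K ≤ j → M / 2 ^ j ≤ e := by
    intro j hj
    rw [div_lt_iff₀ he0] at hK₁
    rw [div_le_iff₀ (by positivity)]
    have : (2 : ℝ) ^ K₁ ≤ 2 ^ j := pow_le_pow_right₀ (by norm_num) (hKK1.trans hj)
    nlinarith
  refine ⟨e / 2 ^ (K + 1), by positivity, fun p hp0 hrec hub hlb k => ?_⟩
  obtain ⟨δ, hδ⟩ : ∃ δ : ℝ, δ = e / 2 ^ (K + 1) := ⟨_, rfl⟩
  rw [← hδ] at hrec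
  have hδ0 : 0 < δ := by rw [hδ]; positivity
  have hδK : 2 ^ (K + 1) * δ = e := by
    rw [hδ]
    field_simp
  -- comparison with `a`
  have hcmp : ∀ j, |p j - a j * p 0| ≤ (2 ^ (j + 1) - 2) * δ := by
    intro j
    induction j with
    | zero => rw [ha0]; norm_num
    | succ j ih =>
      obtain ⟨b, hb⟩ : ∃ b : ℝ, b = 2 / ((2 : ℝ) ^ (j + 1) - 1) := ⟨_, rfl⟩
      have h2j : (2 : ℝ) ≤ 2 ^ (j + 1) := by
        calc (2 : ℝ) = 2 ^ 1 := by norm_num
          _ ≤ 2 ^ (j + 1) := pow_le_pow_right₀ (by norm_num) (by omega)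
      have hb0 : 0 ≤ b := by rw [hb]; exact div_nonneg (by norm_num) (by linarith)
      have hb2 : b ≤ 2 := by
        rw [hb, div_le_iff₀ (by linarith)]
        linarith
      have hstep : a (j + 1) = a j * b := by
        rw [ha, hb]
        simp only
        rw [prod_range_succ]
      have hinv : (2 : ℝ)⁻¹ ^ (j + 1) = 1 / 2 ^ (j + 1) := by
        rw [inv_pow, one_div]
      have hinv' : (2 : ℝ)⁻¹ ^ j = 2 / 2 ^ (j + 1) := by
        rw [inv_pow, pow_succ]
        field_simp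
      have h1 := hrec j
      have hw0 : 0 < (1 - (2 : ℝ)⁻¹ ^ (j + 1)) := by
        rw [hinv]
        have : (1 : ℝ) / 2 ^ (j + 1) ≤ 1 / 2 := by
          apply div_le_div_of_nonneg_left (by norm_num) (by norm_num) h2j
        linarith
      have hw : (1 : ℝ) / 2 ≤ 1 - (2 : ℝ)⁻¹ ^ (j + 1) := by
        rw [hinv]
        have : (1 : ℝ) / 2 ^ (j + 1) ≤ 1 / 2 := by
          apply div_le_div_of_nonneg_left (by norm_num) (by norm_num) h2j
        linarith
      have h2 : (1 - (2 : ℝ)⁻¹ ^ (j + 1)) * b = (2 : ℝ)⁻¹ ^ j := by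
        rw [hinv, hinv', hb]
        have : (2 : ℝ) ^ (j + 1) - 1 ≠ 0 := by linarith
        field_simp
      have h3 : |p (j + 1) - b * p j| ≤ 2 * δ := by
        have h4 : (1 - (2 : ℝ)⁻¹ ^ (j + 1)) * p (j + 1) - (2 : ℝ)⁻¹ ^ j * p j =
            (1 - (2 : ℝ)⁻¹ ^ (j + 1)) * (p (j + 1) - b * p j) := by
          rw [← h2]
          ring
        rw [h4, abs_mul, abs_of_pos hw0] at h1
        have h5 := abs_nonneg (p (j + 1) - b * p j)
        nlinarith
      have h6 : p (j + 1) - a (j + 1) * p 0 = (p (j + 1) - b * p j) + b * (p j - a j * p 0) := by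
        rw [hstep]
        ring
      rw [h6]
      refine (abs_add_le _ _).trans ?_
      rw [abs_mul, abs_of_nonneg hb0]
      have h7 : (2 : ℝ) ^ (j + 1 + 1) = 2 * 2 ^ (j + 1) := by rw [pow_succ]; ring
      rw [h7]
      have h8 := abs_nonneg (p j - a j * p 0)
      nlinarith
  have hprle : ∀ j, K ≤ j → 1 - e ≤ ∑ i ∈ range j, pr2 i := by
    intro j hj
    have h1 := hK₀ j (hKK0.trans hj)
    rw [Real.dist_eq, abs_lt] at h1
    linarith [h1.1]
  have hprub : ∀ j, ∑ i ∈ range j, pr2 i ≤ 1 := fun j =>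
    sum_le_hasSum _ (fun i _ => (hpos i).le) hsum
  rcases le_or_gt K k with hk | hk
  · -- large `k`
    have h1 : p k ≤ e := by
      have h2 := hub (k + 1)
      have h3 := hlb k
      rw [sum_range_succ] at h2
      have h4 := hMK k hk
      linarith
    have h2 : pr2 k ≤ e := by
      have h3 := hprub (k + 1)
      rw [sum_range_succ] at h3
      have h4 := hprle k hk
      linarith
    have h3 := hp0 k
    have h4 := (hpos k).le
    rw [abs_le]
    constructor <;> linarith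
  · -- small `k`
    obtain ⟨A, hA⟩ : ∃ A : ℝ, A = ∑ j ∈ range K, a j := ⟨_, rfl⟩
    have hA1 : 1 ≤ A := by
      rw [hA, ← ha0]
      exact single_le_sum (f := a) (fun j _ => (hapos j).le) (mem_range.2 (by omega))
    have h1 : |∑ j ∈ range K, p j - A * p 0| ≤ e := by
      have h2 : ∑ j ∈ range K, p j - A * p 0 = ∑ j ∈ range K, (p j - a j * p 0) := by
        rw [sum_sub_distrib, hA, sum_mul]
      rw [h2]
      refine (abs_sum_le_sum_abs _ _).trans ((sum_le_sum fun j _ => hcmp j).trans ?_)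
      rw [← sum_mul, ← hδK]
      refine mul_le_mul_of_nonneg_right ?_ hδ0.le
      have h3 : ∀ N : ℕ, ∑ j ∈ range N, ((2 : ℝ) ^ (j + 1) - 2) ≤ 2 ^ (N + 1) - 2 := by
        intro N
        induction N with
        | zero => norm_num
        | succ N ih =>
          rw [sum_range_succ]
          have : (2 : ℝ) ^ (N + 1 + 1) = 2 * 2 ^ (N + 1) := by rw [pow_succ]; ring
          rw [this]
          linarith
      have h4 := h3 K
      linarith
    have h2 : |∑ j ∈ range K, p j - 1| ≤ e := by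
      have h3 := hub K
      have h4 := hlb K
      have h5 := hMK K le_rfl
      rw [abs_le]
      constructor <;> linarith
    have h3 : |c * A - 1| ≤ e := by
      have h4 : c * A = ∑ j ∈ range K, pr2 j := by
        rw [hA, mul_sum]
        exact sum_congr rfl fun j _ => (hpr j).symm
      rw [h4, abs_le]
      have h5 := hprub K
      have h6 := hprle K le_rfl
      constructor <;> linarith
    have h4 : |p 0 - c| ≤ 3 * e := by
      have h5 : |(p 0 - c) * A| ≤ 3 * e := by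
        have h6 : (p 0 - c) * A = (∑ j ∈ range K, p j - 1) - (∑ j ∈ range K, p j - A * p 0) -
            (c * A - 1) := by ring
        rw [h6]
        rw [abs_le] at h1 h2 h3 ⊢
        constructor <;> linarith
      rw [abs_mul, abs_of_pos (by linarith : (0 : ℝ) < A)] at h5
      have h6 := abs_nonneg (p 0 - c)
      nlinarith
    have h5 : p k - pr2 k = (p k - a k * p 0) + a k * (p 0 - c) := by
      rw [hpr]
      ring
    have h6 : (2 ^ (k + 1) - 2) * δ ≤ e := by
      rw [← hδK]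
      refine mul_le_mul_of_nonneg_right ?_ hδ0.le
      have : (2 : ℝ) ^ (k + 1) ≤ 2 ^ (K + 1) := pow_le_pow_right₀ (by norm_num) (by omega)
      linarith
    rw [h5]
    refine (abs_add_le _ _).trans ?_
    rw [abs_mul, abs_of_pos (hapos k)]
    have h7 : a k * |p 0 - c| ≤ 1 / c * (3 * e) :=
      mul_le_mul (hale k) h4 (abs_nonneg _) (by positivity)
    have h8 : 1 / c * (3 * e) = 3 * ε / 4 := by
      rw [he]
      field_simp
    have h9 : e ≤ ε / 4 := by
      rw [he]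
      nlinarith
    have h10 := hcmp k
    linarith

/-- AVG. -/
theorem avg (hE : S_EUL) : S_AVG := by
  intro ε hε D₁
  obtain ⟨δ, hδ, h⟩ := fin_real hE ε hε (2 ^ D₁ + 6) (by positivity)
  obtain ⟨δ', hδ'⟩ : ∃ δ' : ℝ, δ' = min δ (1 / 2) := ⟨_, rfl⟩
  have hδ'0 : 0 < δ' := by rw [hδ']; exact lt_min hδ (by norm_num)
  have hδ'1 : δ' ≤ δ := by rw [hδ']; exact min_le_left _ _
  have hδ'2 : δ' ≤ 1 / 2 := by rw [hδ']; exact min_le_right _ _
  obtain ⟨m, hm⟩ := exists_nat_ge (3 / δ')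
  have hm0 : (0 : ℝ) < m := lt_of_lt_of_le (by positivity) hm
  have hm0' : 0 < m := by exact_mod_cast hm0
  obtain ⟨N, hN⟩ := exists_nat_ge (6 * m / δ')
  refine ⟨m, δ' / 6, max m N, hm0', by positivity, le_max_left _ _, ?_⟩
  intro ι _ d hn h0 hs hD k
  have hmn : m ≤ Fintype.card ι := (le_max_left _ _).trans hn
  have hn0 : (0 : ℝ) < Fintype.card ι := by exact_mod_cast (show 0 < Fintype.card ι by omega)
  have hNn : 6 * m / δ' ≤ Fintype.card ι := hN.trans (by exact_mod_cast (le_max_right _ _).trans hn)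
  have hmn' : (m : ℝ) / Fintype.card ι ≤ δ' / 6 := by
    rw [div_le_iff₀ hδ'0] at hNn
    rw [div_le_iff₀ hn0]
    linarith
  have hr : ∀ J : Finset ι, J.card < m → |ro d J - (1 - (2 : ℝ)⁻¹ ^ d J)| ≤ δ' / 3 := by
    intro J hJ
    refine (ro_near d hmn (by positivity : (0 : ℝ) ≤ δ' / 6) (fun J hJ => hD J hJ) J hJ).trans ?_
    linarith
  have hm3 : 1 / (m : ℝ) ≤ δ' / 3 := by
    rw [div_le_iff₀ hδ'0] at hm
    rw [div_le_iff₀ hm0]
    linarith
  have e : (∑ i ∈ Finset.range m,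
      ((Finset.univ.filter fun J : Finset ι => J.card = i ∧ d J = k).card : ℝ) /
      ((Fintype.card ι).choose i : ℝ)) / m = pb d m k := by
    unfold pb
    congr 1
    exact sum_congr rfl fun i _ => (pk_eq d i k).symm
  rw [e]
  refine h (fun k => pb d m k) (fun k => div_nonneg (sum_nonneg fun i _ => pk_nonneg d i k) hm0.le)
    (fun k => ?_) (fun K => ?_) (fun K => ?_) k
  · refine (pb_rec d hm0' hmn (by positivity) hs hr k).trans ?_
    linarith
  · rw [pb_sum d hm0' hmn]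
    have : 0 ≤ (∑ i ∈ range m, tk d i K) / m := div_nonneg (sum_nonneg fun i _ => tk_nonneg d i K) hm0.le
    linarith
  · rw [pb_sum d hm0' hmn]
    have h1 : (∑ i ∈ range m, tk d i K) / m ≤ (2 ^ D₁ + 6) / 2 ^ K := by
      rw [div_le_iff₀ hm0]
      calc ∑ i ∈ range m, tk d i K ≤ ∑ i ∈ range m, (((2 : ℝ) ^ D₁ + 6) / 2 ^ K) := by
            refine sum_le_sum fun i hi => (tk_le d K).trans ?_
            refine div_le_div_of_nonneg_right ?_ (by positivity)
            exact e2_le d hmn (by linarith) hs hr h0 i (mem_range.1 hi).le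
        _ = (2 ^ D₁ + 6) / 2 ^ K * m := by
            rw [sum_const, card_range, nsmul_eq_mul]
            ring
    linarith

end Pool.Agent.H64.PR
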